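import Pool.Agent.Q293.HF.Stm

/-!
# The quotient map is open and the total space is closed (HF-QO)
-/

set_option autoImplicit false

open Topology Filter
open scoped LinearAlgebra.Projectivization

namespace Pool.Agent.Q176.HF.QO

open Pool.Agent.Q293.HF Pool.Agent.Helper922.HB

/-- the space of the parameters -/
abbrev PS : Type := {e : ℂ × ℂ × (Fin 3 → ℂ) // e.1 ≠ 0 ∧ e.2.2 ≠ 0 ∧ We e.2.1 e.2.2}

lemma om_cube : om ^ 3 = 1 := by
  unfold om
  rw [← Complex.exp_nat_mul, ← Complex.exp_two_pi_mul_I]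
  congr 1
  push_cast
  ring

lemma aa_ne (i : Fin 3) : aa i ≠ 0 := by
  fin_cases i
  · simp [aa]
  · simpa [aa] using om_ne
  · simp [aa]

lemma We_act {t l : ℂ} {X : Fin 3 → ℂ} (k : ℤ) (h : We t X) :
    We t (fun i => l * (aa i ^ k * X i)) := by
  have h0 : aa 0 ^ k = 1 := by simp [aa]
  have h1 : (aa 1 ^ k) ^ 3 = 1 := by
    have e : aa 1 = om := rfl
    rw [e, ← zpow_natCast, ← zpow_mul, mul_comm, zpow_mul]
    have e2 : om ^ ((3 : ℕ) : ℤ) = 1 := by rw [zpow_natCast]; exact om_cube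
    rw [e2, one_zpow]
  have h2 : (aa 2 ^ k) ^ 2 = 1 := by
    have e : aa 2 = -1 := rfl
    rw [e, ← zpow_natCast, ← zpow_mul, mul_comm, zpow_mul]
    have e2 : (-1 : ℂ) ^ ((2 : ℕ) : ℤ) = 1 := by rw [zpow_natCast]; norm_num
    rw [e2, one_zpow]
  unfold We at h ⊢
  change (l * (aa 2 ^ k * X 2)) ^ 2 * (l * (aa 0 ^ k * X 0)) =
    (l * (aa 1 ^ k * X 1)) ^ 3 + t * (l * (aa 0 ^ k * X 0)) ^ 3
  rw [h0]
  linear_combination l ^ 3 * h + (l ^ 3 * X 2 ^ 2 * X 0) * h2 - (l ^ 3 * X 1 ^ 3) * h1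

lemma ne_act {l : ℂ} (hl : l ≠ 0) {X : Fin 3 → ℂ} (k : ℤ) (hX : X ≠ 0) :
    (fun i => l * (aa i ^ k * X i)) ≠ 0 := by
  intro h
  apply hX
  funext i
  have h1 := congrFun h i
  simp only [Pi.zero_apply, mul_eq_zero] at h1
  rcases h1 with h1 | h1 | h1
  · exact absurd h1 hl
  · exact absurd h1 (zpow_ne_zero _ (aa_ne i))
  · exact h1

/-- the action on the parameters -/
noncomputable def act (k : ℤ) (l : ℂ) (hl : l ≠ 0) (e : PS) : PS :=
  ⟨(e.1.1 / 2 ^ k, e.1.2.1, fun i => l * (aa i ^ k * e.1.2.2 i)),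
    div_ne_zero e.2.1 (zpow_ne_zero _ two_ne_zero), ne_act hl k e.2.2.1, We_act k e.2.2.2⟩

lemma act_cont (k : ℤ) (l : ℂ) (hl : l ≠ 0) : Continuous (act k l hl) := by
  unfold act
  refine Continuous.subtype_mk ?_ _
  refine Continuous.prodMk (by fun_prop) (Continuous.prodMk (by fun_prop) ?_)
  refine continuous_pi fun i => ?_
  fun_prop

variable {n : ℕ} {φ : Fin 3 → ℂ → Fin n → ℂ}

lemma Ph_cont (hφ : Emb φ) {T : Type} [TopologicalSpace T] {f : T → ℂ} {g : T → Fin 3 → ℂ}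
    (hf : Continuous f) (hf0 : ∀ t, f t ≠ 0) (hg : Continuous g) :
    Continuous fun t => Ph φ (f t) (g t) := by
  refine continuous_pi fun p => ?_
  unfold Ph
  have h1 : Continuous fun t => φ p.1 (f t) :=
    (hφ.holo p.1).continuousOn.comp_continuous hf hf0
  exact ((continuous_apply p.1).comp hg).mul ((continuous_apply p.2).comp h1)

lemma mk_eq (hI : S_INJ) (hφ : Emb φ) {z z' : ℂ} {X X' : Fin 3 → ℂ} (hz : z ≠ 0) (hz' : z' ≠ 0)
    (hX : X ≠ 0) (hX' : X' ≠ 0) :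
    Projectivization.mk ℂ (Ph φ z' X') (Ph_ne hφ hz' hX') =
      Projectivization.mk ℂ (Ph φ z X) (Ph_ne hφ hz hX) ↔
    ∃ (k : ℤ) (l : ℂ), l ≠ 0 ∧ z' = z / 2 ^ k ∧ ∀ i, X' i = l * (aa i ^ k * X i) := by
  rw [← hI n φ hφ z z' X X' hz hz' hX hX', Projectivization.mk_eq_mk_iff]
  constructor
  · rintro ⟨a, ha⟩
    exact ⟨a, a.ne_zero, ha.symm⟩
  · rintro ⟨l, hl, h⟩
    exact ⟨Units.mk0 l hl, h.symm⟩

/-- the compact space of normalised parameters -/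
abbrev KK : Type := {q : ℂ × (Fin 3 → ℂ) // 1 / 2 ≤ ‖q.1‖ ∧ ‖q.1‖ ≤ 1 ∧ ‖q.2‖ = 1}

instance : CompactSpace KK := by
  refine isCompact_iff_compactSpace.1 (Metric.isCompact_of_isClosed_isBounded ?_ ?_)
  · have c1 : IsClosed {q : ℂ × (Fin 3 → ℂ) | 1 / 2 ≤ ‖q.1‖} :=
      isClosed_le continuous_const (by fun_prop)
    have c2 : IsClosed {q : ℂ × (Fin 3 → ℂ) | ‖q.1‖ ≤ 1} :=
      isClosed_le (by fun_prop) continuous_const
    have c3 : IsClosed {q : ℂ × (Fin 3 → ℂ) | ‖q.2‖ = 1} :=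
      isClosed_eq (by fun_prop) continuous_const
    exact c1.inter (c2.inter c3)
  · refine Metric.isBounded_closedBall (x := (0 : ℂ × (Fin 3 → ℂ))) (r := 1) |>.subset ?_
    rintro q ⟨_, h1, h2⟩
    rw [mem_closedBall_zero_iff, Prod.norm_def]
    exact max_le h1 h2.le

lemma KK_z (q : KK) : q.1.1 ≠ 0 := by
  intro h
  have := q.2.1
  rw [h, norm_zero] at this
  norm_num at this

lemma KK_X (q : KK) : q.1.2 ≠ 0 := by
  intro h
  have := q.2.2.2
  rw [h, norm_zero] at this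
  exact zero_ne_one this

/-- the map from the normalised parameters -/
noncomputable def GG (hφ : Emb φ) (q : KK) : ℙ ℂ (Fin 3 × Fin n → ℂ) :=
  Projectivization.mk ℂ (Ph φ q.1.1 q.1.2) (Ph_ne hφ (KK_z q) (KK_X q))

lemma closedMap (h : S_PT2) (h1 : S_PCO) (hφ : Emb φ) :
    IsClosedMap (Prod.map (id : ℂ → ℂ) (GG hφ)) := by
  have : T2Space (ℙ ℂ (Fin 3 × Fin n → ℂ)) := h (Fin 3 × Fin n)
  have hc : Continuous (GG hφ) := by
    refine h1 (Fin 3 × Fin n) KK (fun q => Ph φ q.1.1 q.1.2)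
      (fun q => Ph_ne hφ (KK_z q) (KK_X q)) ?_
    exact Ph_cont hφ (by fun_prop) KK_z (by fun_prop)
  exact (isProperMap_id.prodMap hc.isProperMap).isClosedMap

/-- normalisation -/
lemma normalise (e : PS) : ∃ (k : ℤ) (l : ℂ) (hl : l ≠ 0) (q : KK),
    (act k l hl e).1 = (q.1.1, e.1.2.1, q.1.2) := by
  obtain ⟨m, hm1, hm2⟩ := exists_mem_Ioc_zpow (norm_pos_iff.2 e.2.1) (one_lt_two (α := ℝ))
  set X' : Fin 3 → ℂ := fun i => 1 * (aa i ^ (m + 1) * e.1.2.2 i) with hX'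
  have hX0 : X' ≠ 0 := ne_act one_ne_zero (m + 1) e.2.2.1
  have hN : ‖X'‖ ≠ 0 := norm_ne_zero_iff.2 hX0
  have hl : (‖X'‖⁻¹ : ℂ) ≠ 0 := inv_ne_zero (Complex.ofReal_ne_zero.2 hN)
  have h2 : (0 : ℝ) < 2 ^ (m + 1) := by positivity
  have hz : ‖e.1.1 / 2 ^ (m + 1)‖ = ‖e.1.1‖ / 2 ^ (m + 1) := by
    rw [norm_div, norm_zpow, Complex.norm_ofNat]
  have hsm : (fun i => (‖X'‖⁻¹ : ℂ) * (aa i ^ (m + 1) * e.1.2.2 i)) = (‖X'‖⁻¹ : ℂ) • X' := by
    funext i
    simp [hX']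
  refine ⟨m + 1, (‖X'‖⁻¹ : ℂ), hl, ⟨(e.1.1 / 2 ^ (m + 1),
    fun i => (‖X'‖⁻¹ : ℂ) * (aa i ^ (m + 1) * e.1.2.2 i)), ?_, ?_, ?_⟩, rfl⟩
  · change 1 / 2 ≤ ‖e.1.1 / 2 ^ (m + 1)‖
    rw [hz, le_div_iff₀ h2, zpow_add_one₀ two_ne_zero]
    linarith
  · change ‖e.1.1 / 2 ^ (m + 1)‖ ≤ 1
    rw [hz, div_le_one h2]
    exact hm2
  · change ‖fun i => (‖X'‖⁻¹ : ℂ) * (aa i ^ (m + 1) * e.1.2.2 i)‖ = 1
    rw [hsm, norm_smul, norm_inv, Complex.norm_real, norm_norm, inv_mul_cancel₀ hN]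

lemma We_closed : IsClosed {p : ℂ × KK | We p.1 p.2.1.2} := by
  unfold We
  exact isClosed_eq (by fun_prop) (by fun_prop)

theorem cl (h : S_PT2) (h1 : S_PCO) (h2 : S_INJ) : S_CL := by
  intro n φ hφ
  have h3 : XX φ = Prod.map (id : ℂ → ℂ) (GG hφ) '' {p : ℂ × KK | We p.1 p.2.1.2} := by
    ext p
    constructor
    · rintro ⟨z, X, hP, hz, hX, hW, hp⟩
      set e : PS := ⟨(z, p.1, X), hz, hX, hW⟩ with he
      obtain ⟨k, l, hl, q, hq⟩ := normalise e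
      have hq1 : z / 2 ^ k = q.1.1 := congrArg Prod.fst hq
      have hq2 : (fun i => l * (aa i ^ k * X i)) = q.1.2 := congrArg (fun x => x.2.2) hq
      refine ⟨(p.1, q), ?_, ?_⟩
      · change We p.1 q.1.2
        rw [← hq2]
        exact We_act k hW
      · refine Prod.ext rfl ?_
        rw [hp]
        exact (mk_eq h2 hφ hz (KK_z q) hX (KK_X q)).2 ⟨k, l, hl, hq1.symm, fun i => by rw [← hq2]⟩
    · rintro ⟨⟨t, q⟩, hW, rfl⟩
      exact ⟨q.1.1, q.1.2, Ph_ne hφ (KK_z q) (KK_X q), KK_z q, KK_X q, hW, rfl⟩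
  rw [h3]
  exact closedMap h h1 hφ _ We_closed

theorem qo (h : S_PT2) (h1 : S_PCO) (h2 : S_INJ) : S_QO := by
  intro n φ hφ Θ hΘ
  have hΘ2 : ∀ e : PS, (Θ e : ℂ × ℙ ℂ (Fin 3 × Fin n → ℂ)) =
      (e.1.2.1, Projectivization.mk ℂ (Ph φ e.1.1 e.1.2.2) (Ph_ne hφ e.2.1 e.2.2.1)) := by
    intro e
    obtain ⟨ha, hb, hc⟩ := hΘ e
    exact Prod.ext ha hc
  have hact : ∀ (k : ℤ) (l : ℂ) (hl : l ≠ 0) (e : PS), Θ (act k l hl e) = Θ e := by
    intro k l hl e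
    apply Subtype.ext
    rw [hΘ2, hΘ2]
    refine Prod.ext rfl ?_
    exact (mk_eq h2 hφ e.2.1 (act k l hl e).2.1 e.2.2.1 (act k l hl e).2.2.1).2
      ⟨k, l, hl, rfl, fun i => rfl⟩
  refine ⟨?_, ?_⟩
  · refine continuous_induced_rng.2 ?_
    have h3 : (Subtype.val ∘ Θ : PS → ℂ × ℙ ℂ (Fin 3 × Fin n → ℂ)) = fun e : PS =>
        (e.1.2.1, Projectivization.mk ℂ (Ph φ e.1.1 e.1.2.2) (Ph_ne hφ e.2.1 e.2.2.1)) :=
      funext hΘ2
    rw [h3]
    refine Continuous.prodMk (by fun_prop) ?_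
    refine h1 (Fin 3 × Fin n) PS (fun e => Ph φ e.1.1 e.1.2.2)
      (fun e => Ph_ne hφ e.2.1 e.2.2.1) ?_
    exact Ph_cont hφ (by fun_prop) (fun e => e.2.1) (by fun_prop)
  · intro O hO
    -- the saturation is open
    have hsat : IsOpen (Θ ⁻¹' (Θ '' O)) := by
      rw [isOpen_iff_forall_mem_open]
      rintro e ⟨e', he', hee⟩
      have h3 : (Θ e' : ℂ × ℙ ℂ (Fin 3 × Fin n → ℂ)) = Θ e := congrArg Subtype.val hee
      rw [hΘ2, hΘ2] at h3
      obtain ⟨h4, h5⟩ := Prod.mk.inj h3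
      obtain ⟨k, l, hl, hz, hX⟩ := (mk_eq h2 hφ e.2.1 e'.2.1 e.2.2.1 e'.2.2.1).1 h5
      have h6 : act k l hl e = e' := by
        apply Subtype.ext
        refine Prod.ext hz.symm (Prod.ext h4.symm ?_)
        funext i
        exact (hX i).symm
      refine ⟨act k l hl ⁻¹' O, ?_, hO.preimage (act_cont k l hl), ?_⟩
      · intro f hf
        exact ⟨act k l hl f, hf, hact k l hl f⟩
      · rw [Set.mem_preimage, h6]
        exact he'
    obtain ⟨D, hD, hDe⟩ := isClosed_induced_iff.1 hsat.isClosed_compl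
    set C0 : Set (ℂ × KK) := {p | We p.1 p.2.1.2} ∩ {p | (p.2.1.1, p.1, p.2.1.2) ∈ D} with hC0
    have hC0c : IsClosed C0 := by
      refine We_closed.inter ?_
      exact hD.preimage (f := fun p : ℂ × KK => (p.2.1.1, p.1, p.2.1.2)) (by fun_prop)
    have hF := closedMap h h1 hφ _ hC0c
    have hcompl : (Θ '' O)ᶜ = Subtype.val ⁻¹' (Prod.map (id : ℂ → ℂ) (GG hφ) '' C0) := by
      ext p
      constructor
      · intro hp
        obtain ⟨z, X, hP, hz, hX, hW, hpe⟩ := p.2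
        set e : PS := ⟨(z, p.1.1, X), hz, hX, hW⟩ with he
        have hpΘ : Θ e = p := by
          apply Subtype.ext
          rw [hΘ2]
          exact Prod.ext rfl hpe.symm
        obtain ⟨k, l, hl, q, hq⟩ := normalise e
        have hq1 : z / 2 ^ k = q.1.1 := congrArg Prod.fst hq
        have hq2 : (fun i => l * (aa i ^ k * X i)) = q.1.2 := congrArg (fun x => x.2.2) hq
        have hmem : act k l hl e ∈ (Θ ⁻¹' (Θ '' O))ᶜ := by
          intro hcon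
          rw [Set.mem_preimage, hact, hpΘ] at hcon
          exact hp hcon
        rw [← hDe] at hmem
        refine ⟨(p.1.1, q), ⟨?_, ?_⟩, ?_⟩
        · change We p.1.1 q.1.2
          rw [← hq2]
          exact We_act k hW
        · change (q.1.1, p.1.1, q.1.2) ∈ D
          have h7 : (act k l hl e).1 ∈ D := hmem
          rw [hq] at h7
          exact h7
        · refine Prod.ext rfl ?_
          rw [hpe]
          exact (mk_eq h2 hφ hz (KK_z q) hX (KK_X q)).2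
            ⟨k, l, hl, hq1.symm, fun i => by rw [← hq2]⟩
      · rintro ⟨⟨t, q⟩, ⟨hW, hmD⟩, hpe⟩
        set e : PS := ⟨(q.1.1, t, q.1.2), KK_z q, KK_X q, hW⟩ with he
        have hpΘ : Θ e = p := by
          apply Subtype.ext
          rw [hΘ2, ← hpe]
          rfl
        have hmem : e ∈ (Θ ⁻¹' (Θ '' O))ᶜ := by
          rw [← hDe]
          exact hmD
        intro hcon
        apply hmem
        rw [Set.mem_preimage, hpΘ]
        exact hcon
    rw [← isClosed_compl_iff, hcompl]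
    exact hF.preimage continuous_subtype_val

end Pool.Agent.Q176.HF.QO
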