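import Pool.Agent.Q293.HF.Stm

/-!
# A theta function (HF-THETA)

`θ z = (1 - z) P z P (1 / z)`, where `P` is the entire function with `P 0 = 1` and
`P (2 w) = (1 - w) P w`, given by its power series.
-/

set_option autoImplicit false

open Topology Filter

namespace Pool.Agent.Q176.HF.THETA

open Pool.Agent.Q293.HF Pool.Agent.Helper922.HB

/-- the coefficients of `P` -/
noncomputable def co : ℕ → ℂ
  | 0 => 1
  | k + 1 => -(co k) / (2 ^ (k + 1) - 1)

lemma norm_den (k : ℕ) : (2 : ℝ) ^ k ≤ ‖(2 : ℂ) ^ (k + 1) - 1‖ := by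
  have h1 : ‖(2 : ℂ) ^ (k + 1)‖ - ‖(1 : ℂ)‖ ≤ ‖(2 : ℂ) ^ (k + 1) - 1‖ := norm_sub_norm_le _ _
  rw [norm_pow, norm_one, Complex.norm_ofNat] at h1
  have h2 : (1 : ℝ) ≤ 2 ^ k := one_le_pow₀ (by norm_num)
  rw [pow_succ] at h1
  linarith

lemma den_ne (k : ℕ) : (2 : ℂ) ^ (k + 1) - 1 ≠ 0 := by
  intro h
  have h1 := norm_den k
  rw [h, norm_zero] at h1
  have h2 : (0 : ℝ) < 2 ^ k := by positivity
  linarith

lemma co_succ (k : ℕ) : co (k + 1) * (2 ^ (k + 1) - 1) = -co k := by
  rw [co, div_mul_cancel₀ _ (den_ne k)]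

lemma norm_co_succ (k : ℕ) : ‖co (k + 1)‖ ≤ ‖co k‖ / 2 ^ k := by
  rw [co, norm_div, norm_neg]
  exact div_le_div_of_nonneg_left (norm_nonneg _) (by positivity) (norm_den k)

lemma summable_co (R : ℝ) (hR : 0 ≤ R) : Summable fun k => ‖co k‖ * R ^ k := by
  refine summable_of_ratio_norm_eventually_le (r := 1 / 2) (by norm_num) ?_
  have h1 : Tendsto (fun k : ℕ => R * (1 / 2 : ℝ) ^ k) atTop (𝓝 (R * 0)) :=
    (tendsto_pow_atTop_nhds_zero_of_lt_one (by norm_num) (by norm_num)).const_mul R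
  rw [mul_zero] at h1
  filter_upwards [h1.eventually (gt_mem_nhds (show (0 : ℝ) < 1 / 2 by norm_num))] with k hk
  rw [Real.norm_of_nonneg (by positivity), Real.norm_of_nonneg (by positivity)]
  have h2 := norm_co_succ k
  calc ‖co (k + 1)‖ * R ^ (k + 1) ≤ ‖co k‖ / 2 ^ k * R ^ (k + 1) :=
        mul_le_mul_of_nonneg_right h2 (by positivity)
    _ = (R * (1 / 2 : ℝ) ^ k) * (‖co k‖ * R ^ k) := by
        rw [one_div, inv_pow, pow_succ]
        ring
    _ ≤ 1 / 2 * (‖co k‖ * R ^ k) := mul_le_mul_of_nonneg_right hk.le (by positivity)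

/-- the entire function -/
noncomputable def P (w : ℂ) : ℂ := ∑' k : ℕ, co k * w ^ k

lemma summable_P (w : ℂ) : Summable fun k => co k * w ^ k := by
  refine Summable.of_norm ?_
  simpa [norm_mul, norm_pow] using summable_co ‖w‖ (norm_nonneg _)

lemma P_zero : P 0 = 1 := by
  unfold P
  rw [tsum_eq_single 0]
  · simp [co]
  · intro k hk
    rw [zero_pow hk, mul_zero]

lemma P_diff : Differentiable ℂ P := by
  intro w
  have h1 : DifferentiableOn ℂ (fun w => ∑' k : ℕ, co k * w ^ k) (Metric.ball 0 (‖w‖ + 1)) := by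
    refine Complex.differentiableOn_tsum_of_summable_norm
      (summable_co (‖w‖ + 1) (by positivity)) (fun k => ?_) Metric.isOpen_ball ?_
    · fun_prop
    · intro k z hz
      rw [norm_mul, norm_pow]
      refine mul_le_mul_of_nonneg_left ?_ (norm_nonneg _)
      exact pow_le_pow_left₀ (norm_nonneg _) (mem_ball_zero_iff.1 hz).le _
  exact h1.differentiableAt (Metric.isOpen_ball.mem_nhds (mem_ball_zero_iff.2 (by linarith)))

lemma P_fe (w : ℂ) : P (2 * w) = (1 - w) * P w := by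
  have h1 : P (2 * w) - P w = ∑' k : ℕ, (co k * (2 * w) ^ k - co k * w ^ k) :=
    ((summable_P (2 * w)).tsum_sub (summable_P w)).symm
  have h2 : Summable fun k : ℕ => (co k * (2 * w) ^ k - co k * w ^ k) :=
    (summable_P (2 * w)).sub (summable_P w)
  rw [h2.tsum_eq_zero_add] at h1
  have h3 : ∀ k : ℕ, co (k + 1) * (2 * w) ^ (k + 1) - co (k + 1) * w ^ (k + 1) =
      -w * (co k * w ^ k) := by
    intro k
    have h4 := co_succ k
    rw [mul_pow, pow_succ w]
    linear_combination (w ^ k * w) * h4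
  simp_rw [h3] at h1
  rw [tsum_mul_left] at h1
  simp only [pow_zero, sub_self, zero_add] at h1
  have h5 : P (2 * w) - P w = -w * P w := h1
  linear_combination h5

lemma P_iter (w : ℂ) (N : ℕ) : P w = (∏ n ∈ Finset.range N, (1 - w / 2 ^ (n + 1))) * P (w / 2 ^ N) := by
  induction N with
  | zero => simp
  | succ N ih =>
    rw [Finset.prod_range_succ, ih]
    have h1 := P_fe (w / 2 ^ (N + 1))
    have h2 : 2 * (w / 2 ^ (N + 1)) = w / 2 ^ N := by
      rw [pow_succ]
      field_simp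
    rw [h2] at h1
    rw [h1]
    ring

lemma P_eq_zero (w : ℂ) : P w = 0 ↔ ∃ n : ℕ, w = 2 ^ (n + 1) := by
  constructor
  · intro h
    by_contra hcon
    push Not at hcon
    have h1 : ∀ N : ℕ, P (w / 2 ^ N) = 0 := by
      intro N
      have h2 := P_iter w N
      rw [h, eq_comm, mul_eq_zero] at h2
      refine h2.resolve_left ?_
      refine Finset.prod_ne_zero_iff.2 ?_
      intro n _ h3
      apply hcon n
      have h4 : w / 2 ^ (n + 1) = 1 := (sub_eq_zero.1 h3).symm
      rwa [div_eq_one_iff_eq (pow_ne_zero _ two_ne_zero)] at h4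
    have h2 : Tendsto (fun N : ℕ => P (w / 2 ^ N)) atTop (𝓝 (P 0)) := by
      refine (P_diff.continuous.tendsto 0).comp ?_
      have h3 : Tendsto (fun N : ℕ => w * (1 / 2 : ℂ) ^ N) atTop (𝓝 (w * 0)) :=
        (tendsto_pow_atTop_nhds_zero_of_norm_lt_one (by norm_num)).const_mul w
      rw [mul_zero] at h3
      refine h3.congr fun N => ?_
      rw [one_div, inv_pow, div_eq_mul_inv]
    simp_rw [h1] at h2
    have h3 := tendsto_nhds_unique h2 tendsto_const_nhds
    rw [P_zero] at h3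
    exact one_ne_zero h3
  · rintro ⟨n, rfl⟩
    rw [P_iter _ (n + 1), Finset.prod_range_succ, div_self (pow_ne_zero _ two_ne_zero)]
    ring

/-- the theta function -/
noncomputable def th (z : ℂ) : ℂ := (1 - z) * (P z * P z⁻¹)

theorem theta : S_THETA := by
  refine ⟨th, ?_, ?_, ?_, ?_⟩
  · intro z hz
    have hz0 : z ≠ 0 := hz
    refine DifferentiableAt.differentiableWithinAt ?_
    unfold th
    have h1 : DifferentiableAt ℂ (fun z : ℂ => P z⁻¹) z :=
      (P_diff _).comp z (differentiableAt_inv hz0)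
    exact ((differentiableAt_const _).sub differentiableAt_id).mul ((P_diff z).mul h1)
  · intro z hz
    have h1 := P_fe (z / 2)
    have h2 := P_fe z⁻¹
    rw [mul_div_cancel₀ z two_ne_zero] at h1
    unfold th
    have h3 : (z / 2)⁻¹ = 2 * z⁻¹ := by
      rw [inv_div, div_eq_mul_inv]
    rw [h3, h2]
    have h4 : (1 - z⁻¹) = -z⁻¹ * (1 - z) := by
      field_simp
      ring
    calc (1 - z / 2) * (P (z / 2) * ((1 - z⁻¹) * P z⁻¹)) =
        ((1 - z / 2) * P (z / 2)) * ((1 - z⁻¹) * P z⁻¹) := by ring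
      _ = P z * ((-z⁻¹ * (1 - z)) * P z⁻¹) := by rw [← h1, h4]
      _ = -z⁻¹ * ((1 - z) * (P z * P z⁻¹)) := by ring
  · intro z hz
    unfold th
    rw [mul_eq_zero, mul_eq_zero, P_eq_zero, P_eq_zero]
    constructor
    · rintro (h | ⟨n, h⟩ | ⟨n, h⟩)
      · exact ⟨0, by rw [zpow_zero]; exact (sub_eq_zero.1 h).symm⟩
      · exact ⟨(n + 1 : ℕ), by rw [zpow_natCast]; exact h⟩
      · refine ⟨-((n + 1 : ℕ) : ℤ), ?_⟩
        rw [zpow_neg, zpow_natCast, ← h, inv_inv]
    · rintro ⟨k, h⟩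
      rcases lt_trichotomy k 0 with hk | hk | hk
      · right; right
        refine ⟨(-k).toNat - 1, ?_⟩
        have h1 : k = -(((-k).toNat - 1 + 1 : ℕ) : ℤ) := by omega
        rw [h]
        conv_lhs => rw [h1]
        rw [zpow_neg, inv_inv, zpow_natCast]
      · left
        rw [h, hk, zpow_zero, sub_self]
      · right; left
        refine ⟨k.toNat - 1, ?_⟩
        have h1 : k = ((k.toNat - 1 + 1 : ℕ) : ℤ) := by omega
        rw [h]
        conv_lhs => rw [h1]
        rw [zpow_natCast]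
  · have h1 : DifferentiableAt ℂ (fun z : ℂ => P z * P z⁻¹) 1 :=
      (P_diff 1).mul ((P_diff _).comp 1 (differentiableAt_inv one_ne_zero))
    have h2 : HasDerivAt (fun z : ℂ => 1 - z) (-1) 1 := (hasDerivAt_id 1).const_sub 1
    have h3 := (h2.mul h1.hasDerivAt).deriv
    have h4 : deriv th 1 = -(P 1 * P 1) := by
      have h5 : th = (fun z : ℂ => 1 - z) * fun z : ℂ => P z * P z⁻¹ := rfl
      rw [h5, h3]
      simp
    rw [h4, neg_ne_zero, ← sq]
    refine pow_ne_zero 2 ?_
    rw [Ne, P_eq_zero]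
    rintro ⟨n, hn⟩
    exact den_ne n (sub_eq_zero.2 hn.symm)

end Pool.Agent.Q176.HF.THETA
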